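import Pool.Agent.Helper4K9.IP.Log
import Pool.Agent.TH143.GT.Fin

/-!
Extension of curves given by iterated linear differential equations across a puncture.
-/

set_option autoImplicit false

namespace Pool.Agent.Helper4K9.IP

open MvPolynomial Metric Set Filter Topology FF Pool.Agent.W602.GT Pool.Agent.TH143
  Pool.Agent.TH143.GT Pool.Agent.W603.BP Pool.Agent.W603.BPR Pool.Agent.W603.GR
  Pool.Agent.W603.PV

variable {N : ℕ} {p : Ideal (MvPolynomial (Fin (N + 1)) ℂ)} {Q : MvPolynomial (Fin (N + 1)) ℂ}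
  {q : ℕ} {f : ℂ → Fin (N + 1) → ℂ}

/-- the functions which are meromorphic on the disc of radius `r`, including its centre -/
def merDisc (r : ℝ) : Subalgebra ℂ (ℂ → ℂ) where
  carrier := {b | MeromorphicOn b (ball 0 r)}
  mul_mem' := fun h1 h2 => h1.mul h2
  add_mem' := fun h1 h2 => h1.add h2
  algebraMap_mem' := fun c x _ => MeromorphicAt.const c x

theorem mem_merDisc {r : ℝ} {b : ℂ → ℂ} : b ∈ merDisc r ↔ MeromorphicOn b (ball 0 r) := Iff.rfl

theorem pb_eq (r : ℝ) : ball (0 : ℂ) r \ {0} = PB r := by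
  ext z
  constructor
  · rintro ⟨h1, h2⟩
    exact ⟨h2, by simpa using h1⟩
  · rintro ⟨h1, h2⟩
    exact ⟨by simpa using h2, h1⟩

theorem db_merDisc (r : ℝ) : DBOn (PB r) (merDisc r) := by
  refine ⟨fun b hb => ?_, fun b hb => ?_⟩
  · exact MeromorphicOn.mono_set (mem_merDisc.1 hb) (by rw [← pb_eq]; exact sdiff_subset)
  · exact MeromorphicOn.deriv (mem_merDisc.1 hb)

/-- The map from the punctured disc with the vector `f` of homogeneous coordinates, to the
complement of the hypersurface `Q = 0` of degree `q`, is given near the origin by iterated linear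
differential equations with coefficients meromorphic at the origin. -/
def NearZero (Q : MvPolynomial (Fin (N + 1)) ℂ) (q : ℕ) (f : ℂ → Fin (N + 1) → ℂ) : Prop :=
  ∃ r : ℝ, 0 < r ∧ r ≤ 1 ∧ IterCurve (ball 0 r \ {0}) (merDisc r) Q q f

theorem pb_sub {r : ℝ} (hr : r ≤ 1) : PB r ⊆ PB 1 := fun _ hz => ⟨hz.1, hz.2.trans_le hr⟩

theorem nearZero_alt (hQ : Q.IsHomogeneous q) (han : ∀ j, AnalyticOnNhd ℂ (fun w => f w j) (PB 1))
    (hne : ∀ z ∈ PB 1, f z ≠ 0) (hX : ∀ z ∈ PB 1, eval (f z) Q ≠ 0) (hit : NearZero Q q f)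
    {K : Type} [Field K] [Algebra ℂ K] {w : ℕ} {y : Fin (N + 1) → K}
    (hy : GenPt f (PB 1) K w y) (hL : LogGeneralType ℂ K w (OffQ Q q y)) : Extends f := by
  obtain ⟨r, hr0, hr1, hit⟩ := hit
  rw [pb_eq] at hit
  have hsub := pb_sub hr1
  have hrel : ∀ G : MvPolynomial (Fin (N + 1)) ℂ, (∀ z ∈ PB r, eval (f z) G = 0) ↔
      ∀ z ∈ PB 1, eval (f z) G = 0 := by
    intro G
    constructor
    · intro h
      have h1 : AnalyticOnNhd ℂ (fun z => eval (f z) G) (PB 1) := eval_an' han G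
      obtain ⟨z0, hz0⟩ := PB_nonempty hr0
      intro z hz
      refine h1.eqOn_zero_of_preconnected_of_eventuallyEq_zero (PB_preconn one_pos) (hsub hz0) ?_ hz
      filter_upwards [(PB_open r).mem_nhds hz0] with x hx
      exact h x hx
    · exact fun h z hz => h z (hsub hz)
  rcases log_mainOn (PB_open r) (PB_preconn hr0) (PB_nonempty hr0) hQ (db_merDisc r)
    (fun j => (han j).mono hsub) (fun z hz => hne z (hsub hz)) (fun z hz => hX z (hsub hz)) hit with
    halg | ⟨M, i1, i2, P, h1, h2, h3⟩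
  · refine extends_of f han hne fun j k hj hk => ?_
    obtain ⟨m, b, hb, ⟨k0, hk0, hbk⟩, hs⟩ := halg j k
    have hP : ∀ j, Pun (fun w => f w j) := fun j => on_pun one_pos (han j)
    have h0 : (0 : ℂ) ∈ ball (0 : ℂ) r := by simpa using hr0
    refine mrel_of_alg (hP j) (hP k) hk m b (fun i => mem_merDisc.1 (hb i) 0 h0)
      ⟨k0, hk0, fun h4 => hbk ?_⟩ ?_
    · -- identity theorem on the full disc
      refine cd_of_ev fun x hx => ?_
      exact mer_top (convex_ball (0 : ℂ) r).isPreconnected (mem_merDisc.1 (hb k0)) h0 h4.frequently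
        (by rw [← pb_eq] at hx; exact hx.1)
    · -- the relation near the origin
      have e1 : ∀ᶠ z in 𝓝[≠] (0 : ℂ), ∀ i ∈ Finset.range (m + 1), AnalyticAt ℂ (b i) z := by
        rw [eventually_all_finset]
        exact fun i _ => (mem_merDisc.1 (hb i) 0 h0).eventually_analyticAt
      filter_upwards [e1, PB_mem hr0] with z hz hzr
      have h5 : AnalyticAt ℂ (fun z => ∑ i ∈ Finset.range (m + 1),
          b i z * f z j ^ i * f z k ^ (m - i)) z := by
        refine Finset.analyticAt_fun_sum _ fun i hi => ?_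
        exact ((hz i hi).fun_mul ((han j z (hsub hzr)).fun_pow i)).fun_mul
          ((han k z (hsub hzr)).fun_pow _)
      exact (near_zero (PB_open r) hzr h5 hs).self_of_nhds
  · exfalso
    refine not_lgt hQ hy.ne hy.gen hy.dim P (fun G hG => ?_) h2 h3 hL
    rw [h1 G hG, hrel G]
    exact hy.rel G hG

/-- **Picard's theorem** for curves given by iterated linear differential equations in
quasi-projective varieties which are strongly of log general type -/
theorem strong_picard (hp : IsHomog p) (hQ : Q.IsHomogeneous q) {G : MvPolynomial (Fin (N + 1)) ℂ}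
    (hG : IsForm G) (h : SubLogGT p Q q G) (hf : PCurve p Q f) (hit : NearZero Q q f)
    (hfG : ∃ z ∈ ball (0 : ℂ) 1 \ {0}, eval (f z) G ≠ 0) : Extends f := by
  have han := hf.an
  have hne : ∀ w ∈ PB 1, f w ≠ 0 := fun w hw => (hf.2 w (mem_disc.2 hw)).1
  have hX : ∀ z ∈ PB 1, ∀ H ∈ p, eval (f z) H = 0 := fun z hz => (hf.2 z (mem_disc.2 hz)).2.1
  have hfQ : ∀ z ∈ PB 1, eval (f z) Q ≠ 0 := fun z hz => (hf.2 z (mem_disc.2 hz)).2.2
  obtain ⟨z0, hz0⟩ := PB_nonempty one_pos
  obtain ⟨j0, hj0⟩ := Function.ne_iff.1 (hne z0 hz0)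
  obtain ⟨K, i1, i2, w, y, h1, h2, h3, h4, h5⟩ := exists_closure f (PB_preconn one_pos) han
    ⟨z0, hz0, hj0⟩
  have hy : GenPt f (PB 1) K w y := ⟨h1, h2, h3, h4⟩
  rcases Nat.eq_zero_or_pos w with hw | hw
  · exact extends_of_const han hne (h5 hw)
  · have hsub := subVar_of_genPt hp hQ hy hX ⟨z0, hz0, hfQ z0 hz0⟩
    have hGy : W602.GT.val y G ≠ 0 := by
      intro h0
      obtain ⟨z, hz, hzG⟩ := hfG
      exact hzG ((hy.rel G hG).1 h0 z (mem_disc.1 hz))
    exact nearZero_alt hQ han hne hfQ hit hy (h K w y hw hsub hGy)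

/-- entire curves which extend at infinity are not Zariski-dense in varieties of log general
type -/
theorem rational_alt (hQ : Q.IsHomogeneous q) (hd : ∀ j, Differentiable ℂ (fun z => f z j))
    (hne : ∀ z, f z ≠ 0) (hX : ∀ z, eval (f z) Q ≠ 0)
    (hnc : ∃ z w j k, f z j * f w k ≠ f z k * f w j) (hext : Extends (fun w => f w⁻¹))
    {K : Type} [Field K] [Algebra ℂ K] {w : ℕ} {y : Fin (N + 1) → K}
    (hy : GenPt f univ K w y) : ¬ LogGeneralType ℂ K w (OffQ Q q y) := by
  obtain ⟨u, P, hu, hfP⟩ := rational_of_extends f hd hne hext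
  have hfu : ∀ x, f x = fun j => u x * (P j).eval x := fun x => funext (hfP x)
  have hPe : ∀ (G : MvPolynomial (Fin (N + 1)) ℂ) (x : ℂ),
      (aeval P G : Polynomial ℂ).eval x = eval (fun j => (P j).eval x) G := by
    intro G x
    have h2 : (aeval P G : Polynomial ℂ).eval x
        = (Polynomial.aeval x : Polynomial ℂ →ₐ[ℂ] ℂ) (aeval P G) := by
      rw [Polynomial.coe_aeval_eq_eval]
    rw [h2, comp_aeval_apply, ← aeval_eq_eval]
    rfl
  have hfe : ∀ (G : MvPolynomial (Fin (N + 1)) ℂ) (d : ℕ), G.IsHomogeneous d → ∀ x,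
      eval (f x) G = u x ^ d * (aeval P G : Polynomial ℂ).eval x := by
    intro G d hG x
    rw [hfu, eval_smul_homog hG, hPe]
  have hQP : ∀ x, (aeval P Q : Polynomial ℂ).eval x ≠ 0 := by
    intro x h0
    apply hX x
    rw [hfe Q q hQ, h0, mul_zero]
  refine not_lgt hQ hy.ne hy.gen hy.dim P ?_ ?_ ?_
  · rintro G ⟨d, hG⟩
    rw [hy.rel G ⟨d, hG⟩]
    constructor
    · intro h
      apply Polynomial.funext
      intro x
      have h1 := h x (mem_univ x)
      rw [hfe G d hG] at h1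
      rw [Polynomial.eval_zero]
      exact (mul_eq_zero.1 h1).resolve_left (pow_ne_zero _ (hu x))
    · intro h x _
      rw [hfe G d hG, h, Polynomial.eval_zero, mul_zero]
  · have h1 : (aeval P Q : Polynomial ℂ).degree = 0 := by
      by_contra hdeg
      obtain ⟨x, hx⟩ := IsAlgClosed.exists_root _ hdeg
      exact hQP x hx
    have h2 := Polynomial.eq_C_of_degree_eq_zero h1
    refine ⟨(aeval P Q : Polynomial ℂ).coeff 0, 0, ?_, by rw [pow_zero, mul_one]; exact h2⟩
    intro h0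
    rw [h0, Polynomial.C_0] at h2
    apply hQP 0
    rw [h2, Polynomial.eval_zero]
  · by_contra hcon
    push Not at hcon
    obtain ⟨s, t, j, k, hst⟩ := hnc
    apply hst
    rw [hfP, hfP, hfP, hfP]
    linear_combination (u s * u t) * poly_const (hcon j k) s t

theorem inv_facts (hd : ∀ j, Differentiable ℂ (fun z => f z j)) (hne : ∀ z, f z ≠ 0)
    (hX : ∀ z, eval (f z) Q ≠ 0) : (∀ j, AnalyticOnNhd ℂ (fun w => f w⁻¹ j) (PB 1)) ∧
      (∀ z ∈ PB 1, f z⁻¹ ≠ 0) ∧ ∀ z ∈ PB 1, eval (f z⁻¹) Q ≠ 0 :=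
  ⟨an_inv hd, fun _ _ => hne _, fun _ _ => hX _⟩

/-- **Brody's property** for entire curves given near infinity by iterated linear differential
equations -/
theorem strong_brody (hp : IsHomog p) (hQ : Q.IsHomogeneous q) {G : MvPolynomial (Fin (N + 1)) ℂ}
    (hG : IsForm G) (h : SubLogGT p Q q G) (hf : EntireCurve p Q f)
    (hit : NearZero Q q (fun w => f w⁻¹)) (z : ℂ) : eval (f z) G = 0 := by
  by_contra hz
  obtain ⟨hd, hne, hfQ, hnc⟩ := ent_data hf
  have hfa : ∀ j, AnalyticOnNhd ℂ (fun w => f w j) univ := fun j z _ => (hd j).analyticAt z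
  obtain ⟨j0, hj0⟩ := Function.ne_iff.1 (hne 0)
  obtain ⟨K, i1, i2, w, y, h1, h2, h3, h4, h5⟩ := exists_closure f isPreconnected_univ hfa
    ⟨0, mem_univ _, hj0⟩
  have hy : GenPt f univ K w y := ⟨h1, h2, h3, h4⟩
  rcases Nat.eq_zero_or_pos w with hw | hw
  · choose c hc using h5 hw
    obtain ⟨s, t, j, k, hst⟩ := hnc
    apply hst
    rw [hc j s (mem_univ _), hc k t (mem_univ _), hc k s (mem_univ _), hc j t (mem_univ _)]
    ring
  · have hsub := subVar_of_genPt hp hQ hy (fun z _ => (hf.2.1 z).2.1) ⟨0, mem_univ _, hfQ 0⟩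
    have hGy : W602.GT.val y G ≠ 0 := by
      intro h0
      exact hz ((hy.rel G hG).1 h0 z (mem_univ z))
    have hL := h K w y hw hsub hGy
    obtain ⟨a1, a2, a3⟩ := inv_facts hd hne hfQ
    exact rational_alt hQ hd hne hfQ hnc (nearZero_alt hQ a1 a2 a3 hit (hy.inv hd) hL) hy hL

end Pool.Agent.Helper4K9.IP
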