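import Mathlib

/-!
Meromorphic functions on a connected open set, up to discrete sets.
-/

set_option autoImplicit false

namespace Pool.Agent.Helper4K9.IP

open Filter Topology Set

variable {Ω : Set ℂ}

theorem cd_ev (hΩ : IsOpen Ω) {p : ℂ → Prop} (h : ∀ᶠ z in codiscreteWithin Ω, p z) {x : ℂ}
    (hx : x ∈ Ω) : ∀ᶠ z in 𝓝[≠] x, p z := by
  have h1 := mem_codiscreteWithin.1 h x hx
  rw [disjoint_principal_right, compl_sdiff] at h1
  have h2 : Ω ∈ 𝓝[≠] x := nhdsWithin_le_nhds (hΩ.mem_nhds hx)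
  filter_upwards [h1, h2] with z h3 h4
  rcases h3 with h3 | h3
  · exact h3
  · exact absurd h4 h3

theorem cd_of_ev {p : ℂ → Prop} (h : ∀ x ∈ Ω, ∀ᶠ z in 𝓝[≠] x, p z) :
    ∀ᶠ z in codiscreteWithin Ω, p z := by
  refine mem_codiscreteWithin.2 fun x hx => ?_
  rw [disjoint_principal_right, compl_sdiff]
  filter_upwards [h x hx] with z hz
  exact Or.inl hz

theorem cd_self : ∀ᶠ z in codiscreteWithin Ω, z ∈ Ω := by
  refine mem_codiscreteWithin.2 fun x hx => ?_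
  rw [disjoint_principal_right]
  have : (Ω \ {z | z ∈ Ω})ᶜ = univ := by
    ext z
    simp
  rw [this]
  exact univ_mem

theorem cd_exists (hΩ : IsOpen Ω) (hne : Ω.Nonempty) {p : ℂ → Prop}
    (h : ∀ᶠ z in codiscreteWithin Ω, p z) : ∃ z ∈ Ω, p z := by
  obtain ⟨x, hx⟩ := hne
  obtain ⟨z, h1, h2⟩ := ((cd_ev hΩ h hx).and (cd_ev hΩ cd_self hx)).exists
  exact ⟨z, h2, h1⟩

/-- on the good set everything holds in a full neighbourhood -/
theorem cd_nhds (hΩ : IsOpen Ω) {p : ℂ → Prop} (h : ∀ᶠ z in codiscreteWithin Ω, p z) {x : ℂ}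
    (hx : x ∈ Ω) (hpx : p x) : ∀ᶠ z in 𝓝 x, p z := by
  have h1 := cd_ev hΩ h hx
  rw [eventually_nhdsWithin_iff] at h1
  filter_upwards [h1] with z hz
  by_cases h2 : z = x
  · rw [h2]
    exact hpx
  · exact hz h2

theorem cd_all (hΩ : IsOpen Ω) {p : ℂ → Prop} (h : ∀ᶠ z in codiscreteWithin Ω, p z) :
    ∀ᶠ x in codiscreteWithin Ω, ∀ᶠ z in 𝓝 x, p z := by
  filter_upwards [h, cd_self (Ω := Ω)] with x hx hx'
  exact cd_nhds hΩ h hx' hx

theorem mer_an {f : ℂ → ℂ} (hf : MeromorphicOn f Ω) :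
    ∀ᶠ z in codiscreteWithin Ω, AnalyticAt ℂ f z :=
  cd_of_ev fun x hx => (hf x hx).eventually_analyticAt

theorem mer_top (hc : IsPreconnected Ω) {f : ℂ → ℂ} (hf : MeromorphicOn f Ω) {x : ℂ} (hx : x ∈ Ω)
    (h : ∃ᶠ z in 𝓝[≠] x, f z = 0) {y : ℂ} (hy : y ∈ Ω) : ∀ᶠ z in 𝓝[≠] y, f z = 0 := by
  have h1 := (hf x hx).frequently_zero_iff_eventuallyEq_zero.1 h
  have h2 : meromorphicOrderAt f x = ⊤ := meromorphicOrderAt_eq_top_iff.2 h1
  by_contra h3
  have h4 : meromorphicOrderAt f y ≠ ⊤ := fun h5 => h3 (meromorphicOrderAt_eq_top_iff.1 h5)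
  exact (MeromorphicOn.meromorphicOrderAt_ne_top_of_isPreconnected hf hc hy hx h4) h2

/-- identity theorem -/
theorem mer_id (hc : IsPreconnected Ω) {f : ℂ → ℂ} (hf : MeromorphicOn f Ω) {x : ℂ} (hx : x ∈ Ω)
    (h : ∃ᶠ z in 𝓝[≠] x, f z = 0) : ∀ᶠ z in codiscreteWithin Ω, f z = 0 :=
  cd_of_ev fun _ hy => mer_top hc hf hx h hy

theorem mer_ne (hc : IsPreconnected Ω) {f : ℂ → ℂ} (hf : MeromorphicOn f Ω)
    (h : ¬ ∀ᶠ z in codiscreteWithin Ω, f z = 0) : ∀ᶠ z in codiscreteWithin Ω, f z ≠ 0 := by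
  apply cd_of_ev
  intro x hx
  by_contra h1
  exact h (mer_id hc hf hx (by simpa using h1))

theorem mer_eval {σ : Type} [Fintype σ] {v : σ → ℂ → ℂ} (hv : ∀ j, MeromorphicOn (v j) Ω)
    (P : MvPolynomial σ ℂ) : MeromorphicOn (fun z => MvPolynomial.eval (fun j => v j z) P) Ω := by
  induction P using MvPolynomial.induction_on with
  | C a =>
    intro x _
    simp
  | add p q hp hq =>
    simp only [map_add]
    exact hp.add hq
  | mul_X p j hp =>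
    simp only [map_mul, MvPolynomial.eval_X]
    exact hp.mul (hv j)

theorem mer_pow {u : ℂ → ℂ} (hu : MeromorphicOn u Ω) (n : ℕ) :
    MeromorphicOn (fun z => u z ^ n) Ω := hu.pow n

theorem mer_sum {n : ℕ} {u : ℕ → ℂ → ℂ} (hu : ∀ k, MeromorphicOn (u k) Ω) :
    MeromorphicOn (fun z => ∑ k ∈ Finset.range n, u k z) Ω := by
  induction n with
  | zero =>
    intro x _
    simp
  | succ n ih =>
    have h1 : (fun z => ∑ k ∈ Finset.range (n + 1), u k z) =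
        fun z => ∑ k ∈ Finset.range n, u k z + u n z := by
      funext z
      rw [Finset.sum_range_succ]
    rw [h1]
    exact ih.add (hu n)

theorem near_zero (hΩ : IsOpen Ω) {u : ℂ → ℂ} {x : ℂ} (hx : x ∈ Ω) (hu : AnalyticAt ℂ u x)
    (h : ∀ᶠ z in codiscreteWithin Ω, u z = 0) : ∀ᶠ z in 𝓝 x, u z = 0 := by
  have h1 : u =ᶠ[𝓝[≠] x] fun _ => 0 := cd_ev hΩ h hx
  exact (hu.continuousAt.eventuallyEq_nhds_iff_eventuallyEq_nhdsNE continuousAt_const).1 h1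

theorem freq_of_ev {p : ℂ → Prop} {x : ℂ} (h : ∀ᶠ z in 𝓝 x, p z) : ∃ᶠ z in 𝓝[≠] x, p z :=
  (h.filter_mono nhdsWithin_le_nhds).frequently

end Pool.Agent.Helper4K9.IP
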