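import Pool.Agent.Y377.IL.Cov
import Pool.Agent.Helper4K9.IP.Mer

/-!
Meromorphic functions on a domain given by iterated linear differential equations over a base ring.
-/

set_option autoImplicit false

namespace Pool.Agent.Helper4K9.IP

open Set Filter Topology MvPolynomial Pool.Agent.Y377.EL Pool.Agent.Y377.IL

/-- The smallest set of functions which contains the quotients of the functions in the ring `B` and
is closed under sums, products and meromorphic solutions on `Ω` of linear systems `y' = A y` with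
coefficients `A` in the set. Functions matter only on `Ω` and up to discrete subsets of `Ω`. -/
inductive IterOn (Ω : Set ℂ) (B : Subalgebra ℂ (ℂ → ℂ)) : (ℂ → ℂ) → Prop
  | quot {b c : ℂ → ℂ} : b ∈ B → c ∈ B → IterOn Ω B fun z => b z / c z
  | add {f g : ℂ → ℂ} : IterOn Ω B f → IterOn Ω B g → IterOn Ω B fun z => f z + g z
  | mul {f g : ℂ → ℂ} : IterOn Ω B f → IterOn Ω B g → IterOn Ω B fun z => f z * g z
  | ode {n : ℕ} (A : Fin n → Fin n → ℂ → ℂ) (y : Fin n → ℂ → ℂ) :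
      (∀ i j, IterOn Ω B (A i j)) → (∀ i, MeromorphicOn (y i) Ω) →
      (∀ᶠ z in codiscreteWithin Ω, ∀ i, HasDerivAt (y i) (∑ j, A i j z * y j z) z) →
        ∀ i, IterOn Ω B (y i)

/-- rings of meromorphic functions on `Ω` which are closed under differentiation -/
structure DBOn (Ω : Set ℂ) (B : Subalgebra ℂ (ℂ → ℂ)) : Prop where
  mero : ∀ b ∈ B, MeromorphicOn b Ω
  der : ∀ b ∈ B, deriv b ∈ B

variable {Ω : Set ℂ} {B : Subalgebra ℂ (ℂ → ℂ)} {N : ℕ}

theorem IterOn.mero (hB : DBOn Ω B) {f : ℂ → ℂ} (h : IterOn Ω B f) : MeromorphicOn f Ω := by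
  induction h with
  | quot h1 h2 => exact (hB.mero _ h1).div (hB.mero _ h2)
  | add _ _ h1 h2 => exact h1.add h2
  | mul _ _ h1 h2 => exact h1.mul h2
  | ode A y _ h2 _ i _ => exact h2 i

theorem baseR_stab (hT : S_TAY) (hB : DBOn Ω B) (z0 : ℂ)
    {D : Derivation ℂ LK LK} (hD : ∀ f : PowerSeries ℂ,
    D (algebraMap _ _ f) = algebraMap _ _ (PowerSeries.derivative ℂ f)) :
    Stab D (baseR hT B z0) := by
  rintro _ ⟨b, hb, hba, rfl⟩
  exact ⟨deriv b, hB.der b hb, hba.deriv, ty_deriv hT hD hba⟩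

theorem baseF_good (hT : S_TAY) (hB : DBOn Ω B) (z0 : ℂ)
    {D : Derivation ℂ LK LK} (hD : ∀ f : PowerSeries ℂ,
    D (algebraMap _ _ f) = algebraMap _ _ (PowerSeries.derivative ℂ f)) :
    GoodB D (baseF hT B z0) :=
  goodB_field _ fun _ hx => stab_frac (baseR_stab hT hB z0 hD) hx

/-- the functions of the class lie in towers at general points -/
theorem IterOn.tow (hΩ : IsOpen Ω) (hcn : IsPreconnected Ω) (hT : S_TAY) (hFML : S_FML)
    (hB : DBOn Ω B) {D : Derivation ℂ LK LK} (hD : ∀ f : PowerSeries ℂ,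
    D (algebraMap _ _ f) = algebraMap _ _ (PowerSeries.derivative ℂ f)) {f : ℂ → ℂ}
    (hf : IterOn Ω B f) : ∀ᶠ z0 in codiscreteWithin Ω, AnalyticAt ℂ f z0 ∧
      ∀ R, LTow D (baseF hT B z0) R → ∃ R', R ≤ R' ∧ LTow D (baseF hT B z0) R' ∧
        ty z0 f ∈ R' := by
  have hle : ∀ z0 (R : Subalgebra ℂ LK), LTow D (baseF hT B z0) R → baseF hT B z0 ≤ R := by
    intro z0 R hR
    induction hR with
    | base => exact le_rfl
    | step _ _ ih => exact ih.trans (le_mat _ _ _)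
  induction hf with
  | @quot b c hb hc =>
    by_cases h0 : ∀ᶠ z in codiscreteWithin Ω, c z = 0
    · filter_upwards [cd_all hΩ h0] with z0 hz0
      have h1 : ∀ᶠ z in 𝓝 z0, b z / c z = 0 := by
        filter_upwards [hz0] with z hz
        rw [hz, div_zero]
      refine ⟨(analyticAt_const (v := (0 : ℂ))).congr (h1.mono fun z hz => hz.symm),
        fun R hR => ⟨R, le_rfl, hR, ?_⟩⟩
      rw [ty_congr hT h1, ty_const hT, map_zero]
      exact R.zero_mem
    · filter_upwards [mer_an (hB.mero b hb), mer_an (hB.mero c hc),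
        mer_ne hcn (hB.mero c hc) h0] with z0 h1 h2 h3
      obtain ⟨h4, h5⟩ := ty_div hT h1 h2 h3
      refine ⟨h4, fun R hR => ⟨R, le_rfl, hR, hle z0 R hR ?_⟩⟩
      rw [h5]
      exact (frac (baseR hT B z0)).div_mem (le_frac _ ⟨b, hb, h1, rfl⟩)
        (le_frac _ ⟨c, hc, h2, rfl⟩)
  | @add f g _ _ ih1 ih2 =>
    filter_upwards [ih1, ih2] with z0 h1 h2
    refine ⟨h1.1.add h2.1, fun R hR => ?_⟩
    obtain ⟨R1, l1, t1, m1⟩ := h1.2 R hR
    obtain ⟨R2, l2, t2, m2⟩ := h2.2 R1 t1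
    refine ⟨R2, l1.trans l2, t2, ?_⟩
    rw [ty_add hT h1.1 h2.1]
    exact R2.add_mem (l2 m1) m2
  | @mul f g _ _ ih1 ih2 =>
    filter_upwards [ih1, ih2] with z0 h1 h2
    refine ⟨h1.1.mul h2.1, fun R hR => ?_⟩
    obtain ⟨R1, l1, t1, m1⟩ := h1.2 R hR
    obtain ⟨R2, l2, t2, m2⟩ := h2.2 R1 t1
    refine ⟨R2, l1.trans l2, t2, ?_⟩
    rw [ty_mul hT h1.1 h2.1]
    exact R2.mul_mem (l2 m1) m2
  | @ode n A y h1 h2 h3 i0 ih =>
    have e1 : ∀ᶠ z0 in codiscreteWithin Ω, ∀ i j, AnalyticAt ℂ (A i j) z0 ∧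
        ∀ R, LTow D (baseF hT B z0) R → ∃ R', R ≤ R' ∧ LTow D (baseF hT B z0) R' ∧
          ty z0 (A i j) ∈ R' := eventually_all.2 fun i => eventually_all.2 fun j => ih i j
    have e2 : ∀ᶠ z0 in codiscreteWithin Ω, ∀ i, AnalyticAt ℂ (y i) z0 :=
      eventually_all.2 fun i => mer_an (h2 i)
    filter_upwards [e1, e2, cd_all hΩ h3] with z0 hA hy hode
    refine ⟨hy i0, fun R hR => ?_⟩
    obtain ⟨R1, l1, t1, m1⟩ : ∃ R', R ≤ R' ∧ LTow D (baseF hT B z0) R' ∧
        ∀ p : Fin n × Fin n, ty z0 (A p.1 p.2) ∈ R' :=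
      ext_family (P := fun x => ∃ p : Fin n × Fin n, x = ty z0 (A p.1 p.2))
        (by
          rintro _ ⟨p, rfl⟩
          exact (hA p.1 p.2).2) (fun p => ⟨p, rfl⟩) R hR
    obtain ⟨X, Y, hXY, hdX, hsol⟩ := hFML n fun i j => tay z0 (A i j)
    have hdy : ∀ i, PowerSeries.derivative ℂ (tay z0 (y i)) =
        ∑ k, tay z0 (A i k) * tay z0 (y k) := by
      intro i
      apply ty_inj
      have f1 : algebraMap (PowerSeries ℂ) LK (PowerSeries.derivative ℂ (tay z0 (y i))) =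
          ty z0 (deriv (y i)) := by
        rw [← hD]
        exact ty_deriv hT hD (hy i)
      have f2 : ∀ᶠ z in 𝓝 z0, deriv (y i) z = ∑ j, A i j z * y j z :=
        hode.mono fun z hz => (hz i).deriv
      have f3 : ∀ j, AnalyticAt ℂ (fun z => A i j z * y j z) z0 := fun j =>
        (hA i j).1.mul (hy j)
      rw [f1, ty_congr hT f2, (ty_sum hT Finset.univ f3).2, map_sum]
      refine Finset.sum_congr rfl fun j _ => ?_
      rw [ty_mul hT (hA i j).1 (hy j), map_mul]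
      rfl
    obtain ⟨c, hc⟩ := hsol (fun i => tay z0 (y i)) hdy
    let x : Matrix (Fin n) (Fin n) LK := fun a b => algebraMap (PowerSeries ℂ) LK (X a b)
    let v : Matrix (Fin n) (Fin n) LK := fun a b => algebraMap (PowerSeries ℂ) LK (Y a b)
    let m : Matrix (Fin n) (Fin n) LK := fun a b => ty z0 (A a b)
    have hF : Fund D R1 x v m := by
      refine ⟨?_, fun a b => m1 (a, b), ?_⟩
      · ext a b
        rw [Matrix.mul_apply, Matrix.one_apply]
        have f1 := congrFun (congrFun hXY a) b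
        rw [Matrix.mul_apply, Matrix.one_apply] at f1
        have f2 := congrArg (algebraMap (PowerSeries ℂ) LK) f1
        rw [map_sum] at f2
        simp only [map_mul] at f2
        change ∑ k, algebraMap (PowerSeries ℂ) LK (X a k) * algebraMap (PowerSeries ℂ) LK (Y k b) = _
        rw [f2]
        split_ifs
        · exact map_one _
        · exact map_zero _
      · intro a b
        change D (algebraMap (PowerSeries ℂ) LK (X a b)) = ∑ k, ty z0 (A a k) *
          algebraMap (PowerSeries ℂ) LK (X k b)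
        rw [hD, hdX, map_sum]
        refine Finset.sum_congr rfl fun k _ => ?_
        rw [map_mul]
        rfl
    refine ⟨mat R1 x v, l1.trans (le_mat R1 x v), LTow.step t1 hF, ?_⟩
    have f1 : ty z0 (y i0) = ∑ k, x i0 k * algebraMap ℂ LK (c k) := by
      unfold ty
      rw [hc i0, map_sum]
      refine Finset.sum_congr rfl fun k _ => ?_
      rw [map_mul, ← IsScalarTower.algebraMap_apply]
    rw [f1]
    exact (mat R1 x v).sum_mem fun k _ => (mat R1 x v).mul_mem (mem_mat_left R1 x v i0 k)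
      ((mat R1 x v).algebraMap_mem _)

/-- a general point of the curve with the homogeneous coordinates `h` -/
structure FPtOn (hT : S_TAY) (Ω : Set ℂ) (B : Subalgebra ℂ (ℂ → ℂ)) (D : Derivation ℂ LK LK)
    (h : Fin (N + 1) → ℂ → ℂ) (z0 : ℂ) (l : Fin (N + 1)) (R : Subalgebra ℂ LK) : Prop where
  pt : z0 ∈ Ω
  an : ∀ j, AnalyticAt ℂ (h j) z0
  tow : LTow D (baseF hT B z0) R
  mem : ∀ j, ty z0 (h j) ∈ R
  ne : h l z0 ≠ 0
  ne' : ty z0 (h l) ≠ 0
  val : ∀ G : MvPolynomial (Fin (N + 1)) ℂ, aeval (fun j => ty z0 (h j)) G = 0 ↔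
      ∀ᶠ z in codiscreteWithin Ω, eval (fun j => h j z) G = 0

theorem exists_fptOn (hΩ : IsOpen Ω) (hcn : IsPreconnected Ω) (hne0 : Ω.Nonempty) (hT : S_TAY)
    (hFML : S_FML) (hB : DBOn Ω B)
    {D : Derivation ℂ LK LK} (hD : ∀ f : PowerSeries ℂ,
    D (algebraMap _ _ f) = algebraMap _ _ (PowerSeries.derivative ℂ f))
    {h : Fin (N + 1) → ℂ → ℂ} (hl : ∀ j, IterOn Ω B (h j))
    (hne : ∀ᶠ z in codiscreteWithin Ω, (fun j => h j z) ≠ 0)
    {ι : Type} [Finite ι] {k : ι → ℂ → ℂ} (hk : ∀ i, IterOn Ω B (k i)) :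
    ∃ z0 l R, FPtOn hT Ω B D h z0 l R ∧ ∀ i, AnalyticAt ℂ (k i) z0 ∧ ty z0 (k i) ∈ R := by
  have hm : ∀ j, MeromorphicOn (h j) Ω := fun j => (hl j).mero hB
  have e1 : ∀ᶠ z0 in codiscreteWithin Ω, ∀ j, AnalyticAt ℂ (h j) z0 ∧
      ∀ R, LTow D (baseF hT B z0) R → ∃ R', R ≤ R' ∧ LTow D (baseF hT B z0) R' ∧
        ty z0 (h j) ∈ R' := eventually_all.2 fun j => (hl j).tow hΩ hcn hT hFML hB hD
  have e2 : ∀ᶠ z0 in codiscreteWithin Ω, ∀ j, AnalyticAt ℂ (k j) z0 ∧
      ∀ R, LTow D (baseF hT B z0) R → ∃ R', R ≤ R' ∧ LTow D (baseF hT B z0) R' ∧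
        ty z0 (k j) ∈ R' := eventually_all.2 fun j => (hk j).tow hΩ hcn hT hFML hB hD
  obtain ⟨z0, hzΩ, ⟨hz0, hz1⟩, hz3⟩ := cd_exists hΩ hne0 ((e1.and hne).and e2)
  obtain ⟨l, hl0⟩ := Function.ne_iff.1 hz1
  have hl0' : h l z0 ≠ 0 := hl0
  have han : ∀ j, AnalyticAt ℂ (h j) z0 := fun j => (hz0 j).1
  obtain ⟨R1, -, hRt1, hxR1⟩ := ext_family (P := fun y => ∃ j, y = ty z0 (h j)) (by
    rintro _ ⟨j, rfl⟩
    exact (hz0 j).2) (x := fun j => ty z0 (h j)) (fun j => ⟨j, rfl⟩) _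
    (LTow.base (R0 := baseF hT B z0))
  obtain ⟨R, hRR, hRt, hkR⟩ := ext_family (P := fun y => ∃ j, y = ty z0 (k j)) (by
    rintro _ ⟨j, rfl⟩
    exact (hz3 j).2) (x := fun j => ty z0 (k j)) (fun j => ⟨j, rfl⟩) _ hRt1
  refine ⟨z0, l, R, ⟨hzΩ, han, hRt, fun j => hRR (hxR1 j), hl0', ?_, fun G => ?_⟩,
    fun i => ⟨(hz3 i).1, hkR i⟩⟩
  · rw [Ne, ty_zero hT (han l)]
    intro h3
    exact hl0' h3.self_of_nhds
  · obtain ⟨h3, h4⟩ := ty_eval hT han G
    rw [← h4, ty_zero hT h3]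
    exact ⟨fun h6 => mer_id hcn (mer_eval hm G) hzΩ (freq_of_ev h6), fun h6 => near_zero hΩ hzΩ h3 h6⟩

/-- two functions on `Ω` whose ratio is algebraic over the ring `B` -/
def AlgRatioOn (Ω : Set ℂ) (B : Subalgebra ℂ (ℂ → ℂ)) (u v : ℂ → ℂ) : Prop :=
  ∃ (m : ℕ) (b : ℕ → ℂ → ℂ), (∀ k, b k ∈ B) ∧
    (∃ k ≤ m, ¬ ∀ᶠ z in codiscreteWithin Ω, b k z = 0) ∧
    ∀ᶠ z in codiscreteWithin Ω,
      ∑ k ∈ Finset.range (m + 1), b k z * u z ^ k * v z ^ (m - k) = 0

theorem algRatioOn_of_ty (hΩ : IsOpen Ω) (hcn : IsPreconnected Ω) (hT : S_TAY) (hB : DBOn Ω B)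
    {z0 : ℂ} (hz0 : z0 ∈ Ω)
    {u v : ℂ → ℂ} (hu : MeromorphicOn u Ω) (hv : MeromorphicOn v Ω) (hua : AnalyticAt ℂ u z0)
    (hva : AnalyticAt ℂ v z0) (hv0 : ty z0 v ≠ 0)
    (hal : IsAlgebraic (baseF hT B z0) (ty z0 u / ty z0 v)) : AlgRatioOn Ω B u v := by
  have h1 : IsAlgebraic (baseR hT B z0) (ty z0 u / ty z0 v) :=
    alg_trans (fun x hx => le_frac _ hx) (fun x hx => frac_alg (fun y hy => alg_of_mem hy) hx) hal
  obtain ⟨P, hP0, hP⟩ := h1
  have hc : ∀ k, ∃ b ∈ B, AnalyticAt ℂ b z0 ∧ ((P.coeff k : baseR hT B z0) : LK) = ty z0 b :=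
    fun k => (P.coeff k).2
  choose b hb hba hbe using hc
  refine ⟨P.natDegree, b, hb, ⟨P.natDegree, le_rfl, fun h0 => ?_⟩, ?_⟩
  · apply hP0
    apply Polynomial.leadingCoeff_eq_zero.1
    apply Subtype.ext
    change ((P.coeff P.natDegree : baseR hT B z0) : LK) = 0
    rw [hbe, ty_zero hT (hba _)]
    exact near_zero hΩ hz0 (hba _) h0
  · have h2 : ∀ k, AnalyticAt ℂ (fun z => b k z * u z ^ k * v z ^ (P.natDegree - k)) z0 := fun k =>
      ((hba k).mul (an_pow hua hT k).1).mul (an_pow hva hT _).1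
    have h3 : ty z0 (fun z => ∑ k ∈ Finset.range (P.natDegree + 1),
        b k z * u z ^ k * v z ^ (P.natDegree - k)) = 0 := by
      rw [(ty_sum hT (Finset.range (P.natDegree + 1)) h2).2]
      have h4 : ∀ k ∈ Finset.range (P.natDegree + 1),
          ty z0 (fun z => b k z * u z ^ k * v z ^ (P.natDegree - k)) =
            ty z0 v ^ P.natDegree * (((P.coeff k : baseR hT B z0) : LK) *
              (ty z0 u / ty z0 v) ^ k) := by
        intro k hk
        have hk' : k ≤ P.natDegree := by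
          have := Finset.mem_range.1 hk
          omega
        have e1 : ty z0 (fun z => b k z * u z ^ k * v z ^ (P.natDegree - k)) =
            ty z0 (fun z => b k z * u z ^ k) * ty z0 (fun z => v z ^ (P.natDegree - k)) :=
          ty_mul hT ((hba k).mul (an_pow hua hT k).1) (an_pow hva hT _).1
        have e2 : ty z0 (fun z => b k z * u z ^ k) = ty z0 (b k) * ty z0 (fun z => u z ^ k) :=
          ty_mul hT (hba k) (an_pow hua hT k).1
        rw [e1, e2, (an_pow hua hT k).2, (an_pow hva hT _).2, hbe, div_pow]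
        have h5 : ty z0 v ^ P.natDegree = ty z0 v ^ k * ty z0 v ^ (P.natDegree - k) := by
          rw [← pow_add, Nat.add_sub_cancel' hk']
        rw [h5]
        have h6 : ty z0 v ^ k ≠ 0 := pow_ne_zero _ hv0
        field_simp
      rw [Finset.sum_congr rfl h4, ← Finset.mul_sum]
      rw [Polynomial.aeval_eq_sum_range] at hP
      have h7 : ∑ k ∈ Finset.range (P.natDegree + 1), (((P.coeff k : baseR hT B z0) : LK) *
          (ty z0 u / ty z0 v) ^ k) = 0 := hP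
      rw [h7, mul_zero]
    rw [ty_zero hT (ty_sum hT (Finset.range (P.natDegree + 1)) h2).1] at h3
    exact mer_id hcn (mer_sum fun k => ((hB.mero _ (hb k)).mul (mer_pow hu k)).mul
      (mer_pow hv _)) hz0 (freq_of_ev h3)

end Pool.Agent.Helper4K9.IP
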