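import Pool.Agent.Helper4K9.IP.Cls
import Pool.Agent.Y377.IL.AllD
import Pool.Agent.Y405.IL.Lgt

/-!
Curves in quasi-projective varieties, on a domain, given by iterated linear differential equations.
-/

set_option autoImplicit false

namespace Pool.Agent.Helper4K9.IP

open Set Filter Topology MvPolynomial Pool.Agent.Y377.EL Pool.Agent.Y377.IL
open Pool.Agent.W602.GT (IsForm LogGeneralType coords)
open Pool.Agent.W603.GR (OffQ)
open Pool.Agent.TH143.GT (FunField)

variable {Ω : Set ℂ} {B : Subalgebra ℂ (ℂ → ℂ)} {N : ℕ}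

/-- the restriction of the regular function `x ^ α / Q` to the curve with the vector `f` of
homogeneous coordinates -/
noncomputable def regV (Q : MvPolynomial (Fin (N + 1)) ℂ) (α : Fin (N + 1) →₀ ℕ)
    (f : ℂ → Fin (N + 1) → ℂ) : ℂ → ℂ :=
  fun z => (∏ j, f z j ^ α j) / eval (f z) Q

/-- The curve with the vector `f` of homogeneous coordinates in the complement of the hypersurface
`Q = 0`, of degree `q`, is given on `Ω` by iterated linear differential equations over `B`: the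
regular functions `x ^ α / Q`, where `x ^ α` is a monomial of degree `q`, along the curve are in the
class; if `q = 0`, then this is replaced by the existence of homogeneous coordinates in the
class. -/
def IterCurve (Ω : Set ℂ) (B : Subalgebra ℂ (ℂ → ℂ)) (Q : MvPolynomial (Fin (N + 1)) ℂ) (q : ℕ)
    (f : ℂ → Fin (N + 1) → ℂ) : Prop :=
  (q = 0 → ∃ h : Fin (N + 1) → ℂ → ℂ, (∀ j, IterOn Ω B (h j)) ∧
    ∀ᶠ z in codiscreteWithin Ω, ∃ c : ℂ, c ≠ 0 ∧ ∀ j, h j z = c * f z j) ∧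
  (q ≠ 0 → ∀ α : Fin (N + 1) →₀ ℕ, ∑ j, α j = q → IterOn Ω B (regV Q α f))

/-- homogeneous coordinates for families of lines -/
theorem rat_P {K : Type} [Field K] [Algebra ℂ K]
    {x : Fin (N + 1) → K} {l : Fin (N + 1)} (hl : x l ≠ 0) {S : Subalgebra ℂ K} {t : Finset K}
    (ht : ∀ j, x j / x l ∈ t) (ht' : ∀ a ∈ t, ∃ j, a = x j / x l) (hF : RatFam S t) :
    ∃ (M : Type) (_ : Field M) (_ : Algebra ℂ M) (P : Fin (N + 1) → Polynomial M),
      (∀ G : MvPolynomial (Fin (N + 1)) ℂ, (∃ e, G.IsHomogeneous e) →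
        (aeval P G = 0 ↔ aeval x G = 0)) ∧
      ∃ j k, Polynomial.derivative (P j) * P k ≠ P j * Polynomial.derivative (P k) := by
  classical
  obtain ⟨S0, M, i1, i2, φ, -, h2, -, ⟨a, ha, hac⟩, -⟩ := hF
  have hM : CharZero M := charZero_of_injective_algebraMap (algebraMap ℂ M).injective
  let y : Fin (N + 1) → frac S0 := fun j => ⟨x j / x l, h2 _ (ht j)⟩
  obtain ⟨b, hb⟩ := IsLocalization.exist_integer_multiples (nonZeroDivisors (Polynomial M))
    Finset.univ (fun j => φ (y j))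
  choose P hP using fun j => hb j (Finset.mem_univ j)
  have hb0 : (b : Polynomial M) ≠ 0 := nonZeroDivisors.ne_zero b.2
  set q : RatFunc M := algebraMap (Polynomial M) (RatFunc M) b with hq
  have hq0 : q ≠ 0 := by
    rw [hq, Ne, map_eq_zero_iff _ (RatFunc.algebraMap_injective M)]
    exact hb0
  have hPq : ∀ j, algebraMap (Polynomial M) (RatFunc M) (P j) = q * φ (y j) := by
    intro j
    rw [hP j, Algebra.smul_def]
  have hyl : y l = 1 := Subtype.ext (div_self hl)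
  have hPl : P l = b := by
    apply RatFunc.algebraMap_injective M
    rw [hPq, hyl, map_one, mul_one]
  -- values of forms
  have hval : ∀ (d : ℕ) (G : MvPolynomial (Fin (N + 1)) ℂ), G.IsHomogeneous d →
      (aeval P G = 0 ↔ aeval x G = 0) := by
    intro d G hG
    have e1 : algebraMap (Polynomial M) (RatFunc M) (aeval P G) = q ^ d * φ (aeval y G) := by
      have e2 : algebraMap (Polynomial M) (RatFunc M) (aeval P G) =
          aeval (fun j => algebraMap (Polynomial M) (RatFunc M) (P j)) G := by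
        have := MvPolynomial.comp_aeval_apply (f := P)
          (IsScalarTower.toAlgHom ℂ (Polynomial M) (RatFunc M)) G
        exact this
      rw [e2]
      have e3 : (fun j => algebraMap (Polynomial M) (RatFunc M) (P j)) =
          fun j => q * (fun j => φ (y j)) j := funext hPq
      rw [e3, form_scale hG, MvPolynomial.comp_aeval_apply (f := y) φ G]
    have e4 : aeval x G = x l ^ d * aeval (fun j => x j / x l) G := by
      rw [← form_scale hG]
      congr 2
      funext j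
      rw [mul_div_cancel₀ _ hl]
    have e5 : ((aeval y G : frac S0) : K) = aeval (fun j => x j / x l) G := by
      have := MvPolynomial.comp_aeval_apply (f := y) (frac S0).val G
      exact this
    rw [← map_eq_zero_iff _ (RatFunc.algebraMap_injective M), e1, mul_eq_zero,
      or_iff_right (pow_ne_zero _ hq0), map_eq_zero_iff φ φ.injective, e4, mul_eq_zero,
      or_iff_right (pow_ne_zero _ hl), ← e5]
    exact Subtype.ext_iff
  refine ⟨M, i1, i2, P, fun G hG => ?_, ?_⟩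
  · obtain ⟨d, hd⟩ := hG
    exact hval d G hd
  · obtain ⟨j, hj⟩ := ht' _ ha
    refine ⟨j, l, fun hw => ?_⟩
    obtain ⟨c, hc⟩ := prop_of_wronskian (by rw [hPl]; exact hb0) hw
    apply hac c
    have e6 : a = y j := Subtype.ext hj
    rw [e6]
    have e7 := hPq j
    rw [hc, hPl, map_mul, ← hq] at e7
    have e8 : algebraMap (Polynomial M) (RatFunc M) (Polynomial.C c) =
        algebraMap M (RatFunc M) c := rfl
    rw [e8, mul_comm] at e7
    exact (mul_left_cancel₀ hq0 e7).symm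

/-- scaling of the homogeneous coordinates -/
theorem algRatio_scale {u v u' v' c : ℂ → ℂ}
    (hc : ∀ᶠ z in codiscreteWithin Ω, c z ≠ 0 ∧ u' z = c z * u z ∧ v' z = c z * v z)
    (ha : AlgRatioOn Ω B u' v') : AlgRatioOn Ω B u v := by
  obtain ⟨m, b, hb, hne, hs⟩ := ha
  refine ⟨m, b, hb, hne, ?_⟩
  filter_upwards [hs, hc] with z h1 ⟨h2, h3, h4⟩
  have h5 : ∀ k ∈ Finset.range (m + 1), b k z * u' z ^ k * v' z ^ (m - k) =
      c z ^ m * (b k z * u z ^ k * v z ^ (m - k)) := by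
    intro k hk
    have hk' : k ≤ m := by
      have := Finset.mem_range.1 hk
      omega
    rw [h3, h4, mul_pow, mul_pow]
    have h6 : c z ^ m = c z ^ k * c z ^ (m - k) := by
      rw [← pow_add, Nat.add_sub_cancel' hk']
    rw [h6]
    ring
  rw [Finset.sum_congr rfl h5, ← Finset.mul_sum] at h1
  exact (mul_eq_zero.1 h1).resolve_left (pow_ne_zero _ h2)

/-- curves with algebraic germs of the coordinates -/
theorem algebraic_of_ty (hΩ : IsOpen Ω) (hcn : IsPreconnected Ω) (hne0 : Ω.Nonempty)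
    {hT : S_TAY} (hB : DBOn Ω B)
    {h : Fin (N + 1) → ℂ → ℂ} (hl : ∀ j, IterOn Ω B (h j))
    {z0 : ℂ} (hz0 : z0 ∈ Ω) {l : Fin (N + 1)} (han : ∀ j, AnalyticAt ℂ (h j) z0)
    (hne : ty z0 (h l) ≠ 0)
    (hal : ∀ j, IsAlgebraic (baseF hT B z0) (ty z0 (h j) / ty z0 (h l))) (i j : Fin (N + 1)) :
    AlgRatioOn Ω B (h i) (h j) := by
  by_cases hj : ty z0 (h j) = 0
  · have h1 : ∀ᶠ z in codiscreteWithin Ω, h j z = 0 :=
      mer_id hcn ((hl j).mero hB) hz0 (freq_of_ev ((ty_zero hT (han j)).1 hj))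
    refine ⟨1, fun k _ => if k = 0 then 1 else 0, fun k => ?_, ⟨0, zero_le_one, fun h0 => ?_⟩, ?_⟩
    · exact B.algebraMap_mem (if k = 0 then (1 : ℂ) else 0)
    · obtain ⟨z, -, hz⟩ := cd_exists hΩ hne0 h0
      simp at hz
    · filter_upwards [h1] with z hz
      rw [Finset.sum_range_succ, Finset.sum_range_one, hz]
      simp
  · refine algRatioOn_of_ty hΩ hcn hT hB hz0 ((hl i).mero hB) ((hl j).mero hB) (han i) (han j) hj ?_
    have h1 : ty z0 (h i) / ty z0 (h j) =
        (ty z0 (h i) / ty z0 (h l)) * (ty z0 (h j) / ty z0 (h l))⁻¹ := by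
      rw [inv_div, div_mul_div_cancel₀ hne]
    rw [h1]
    exact (hal i).mul (hal j).inv

/-- forms along the curve -/
theorem form_vec (hΩ : IsOpen Ω) {f : ℂ → Fin (N + 1) → ℂ}
    (hf : ∀ j, AnalyticOnNhd ℂ (fun w => f w j) Ω) {h : Fin (N + 1) → ℂ → ℂ} {c : ℂ → ℂ}
    (hc : ∀ᶠ z in codiscreteWithin Ω, c z ≠ 0 ∧ ∀ j, h j z = c z * f z j)
    {G : MvPolynomial (Fin (N + 1)) ℂ} (hG : ∃ d, G.IsHomogeneous d) :
    (∀ᶠ z in codiscreteWithin Ω, eval (fun j => h j z) G = 0) ↔ ∀ z ∈ Ω, eval (f z) G = 0 := by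
  obtain ⟨d, hd⟩ := hG
  have han : ∀ z ∈ Ω, AnalyticAt ℂ (fun z => eval (f z) G) z := by
    intro z hz
    exact (ty_eval Pool.Agent.Y564.IL.t_TAY (h := fun j w => f w j) (fun j => hf j z hz) G).1
  have hs : ∀ z, (∀ j, h j z = c z * f z j) → eval (fun j => h j z) G = c z ^ d * eval (f z) G := by
    intro z hz
    have h1 : (fun j => h j z) = fun j => c z * f z j := funext hz
    rw [h1, eval_scale hd]
  constructor
  · intro h0 z hz
    have h1 : ∀ᶠ w in codiscreteWithin Ω, eval (f w) G = 0 := by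
      filter_upwards [h0, hc] with w h2 ⟨h3, h4⟩
      rw [hs w h4] at h2
      exact (mul_eq_zero.1 h2).resolve_left (pow_ne_zero _ h3)
    exact (near_zero hΩ hz (han z hz) h1).self_of_nhds
  · intro h0
    filter_upwards [hc, cd_self (Ω := Ω)] with z ⟨_, h4⟩ hz
    rw [hs z h4, h0 z hz, mul_zero]

/-- **Curves in the complement of a hypersurface, on a domain.** -/
theorem log_mainOn (hΩ : IsOpen Ω) (hcn : IsPreconnected Ω) (hne0 : Ω.Nonempty)
    {Q : MvPolynomial (Fin (N + 1)) ℂ} {d : ℕ} (hQ : Q.IsHomogeneous d) (hB : DBOn Ω B)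
    {f : ℂ → Fin (N + 1) → ℂ} (hf : ∀ j, AnalyticOnNhd ℂ (fun w => f w j) Ω)
    (hfne : ∀ z ∈ Ω, f z ≠ 0) (hX : ∀ z ∈ Ω, eval (f z) Q ≠ 0) (hl : IterCurve Ω B Q d f) :
    (∀ i j, AlgRatioOn Ω B (fun z => f z i) fun z => f z j) ∨
      ∃ (M : Type) (_ : Field M) (_ : Algebra ℂ M) (P : Fin (N + 1) → Polynomial M),
        (∀ G : MvPolynomial (Fin (N + 1)) ℂ, (∃ e, G.IsHomogeneous e) →
          (aeval P G = 0 ↔ ∀ z ∈ Ω, eval (f z) G = 0)) ∧
        (∃ (c : M) (k : ℕ), c ≠ 0 ∧ aeval P Q = Polynomial.C c * Polynomial.X ^ k) ∧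
        ∃ j k, Polynomial.derivative (P j) * P k ≠ P j * Polynomial.derivative (P k) := by
  classical
  have H := hyp
  have hT := Pool.Agent.Y564.IL.t_TAY
  obtain ⟨D, hD, hC⟩ := Pool.Agent.Y884.IL.t_FRC
  rcases Nat.eq_zero_or_pos d with hd | hd
  · -- the projective case
    obtain ⟨h, hlh, hr⟩ := hl.1 hd
    let c : ℂ → ℂ := fun z => if hz : ∃ c : ℂ, c ≠ 0 ∧ ∀ j, h j z = c * f z j then hz.choose else 1
    have hc : ∀ᶠ z in codiscreteWithin Ω, c z ≠ 0 ∧ ∀ j, h j z = c z * f z j := by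
      filter_upwards [hr] with z hz
      have h1 : c z = hz.choose := dif_pos hz
      rw [h1]
      exact hz.choose_spec
    have hhne : ∀ᶠ z in codiscreteWithin Ω, (fun j => h j z) ≠ 0 := by
      filter_upwards [hc, cd_self (Ω := Ω)] with z ⟨h1, h2⟩ hz h3
      apply hfne z hz
      funext j
      have h4 := congrFun h3 j
      rw [Pi.zero_apply, h2 j] at h4
      exact (mul_eq_zero.1 h4).resolve_left h1
    obtain ⟨z0, l', R, hF, -⟩ := exists_fptOn hΩ hcn hne0 hT Pool.Agent.Y954.IL.t_FML hB hD hlh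
      hhne (ι := Fin 0) (k := fun i => i.elim0) (fun i => i.elim0)
    let x : Fin (N + 1) → LK := fun j => ty z0 (h j)
    by_cases hall : ∀ j, IsAlgebraic (baseF hT B z0) (x j / x l')
    · left
      intro i j
      exact algRatio_scale (hc.mono fun z hz => ⟨hz.1, hz.2 i, hz.2 j⟩)
        (algebraic_of_ty hΩ hcn hne0 hB hlh hF.pt hF.an hF.ne' hall i j)
    right
    push Not at hall
    obtain ⟨j0, hj0⟩ := hall
    let t : Finset LK := Finset.univ.image fun j => x j / x l'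
    have hRF : RatFam R t := by
      refine H.main hC (baseF_good hT hB z0 hD) hF.tow (fun a ha => ?_) ⟨x j0 / x l',
        Finset.mem_image.2 ⟨j0, Finset.mem_univ j0, rfl⟩, hj0⟩
      obtain ⟨j, -, rfl⟩ := Finset.mem_image.1 ha
      exact (frac R).div_mem (le_frac R (hF.mem j)) (le_frac R (hF.mem l'))
    obtain ⟨M, i1, i2, P, h1, h3⟩ := rat_P hF.ne'
      (fun j => Finset.mem_image.2 ⟨j, Finset.mem_univ j, rfl⟩)
      (fun a ha => by
        obtain ⟨j, -, rfl⟩ := Finset.mem_image.1 ha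
        exact ⟨j, rfl⟩) hRF
    have hrel : ∀ G : MvPolynomial (Fin (N + 1)) ℂ, (∃ e, G.IsHomogeneous e) →
        (aeval P G = 0 ↔ ∀ z ∈ Ω, eval (f z) G = 0) := by
      intro G hG
      rw [h1 G hG, ← form_vec hΩ hf hc hG]
      exact hF.val G
    refine ⟨M, i1, i2, P, hrel, ?_, h3⟩
    -- the form of degree zero is a constant
    rw [hd] at hQ
    obtain ⟨a, ha⟩ : ∃ a : ℂ, Q = C a := ⟨coeff 0 Q, by
      exact (totalDegree_eq_zero_iff_eq_C).1 (Nat.le_zero.1 hQ.totalDegree_le)⟩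
    obtain ⟨z1, hz1⟩ := hne0
    have ha0 : a ≠ 0 := by
      intro h0
      apply hX z1 hz1
      rw [ha, h0, map_zero, map_zero]
    refine ⟨algebraMap ℂ M a, 0, ?_, ?_⟩
    · rw [Ne, map_eq_zero_iff _ (algebraMap ℂ M).injective]
      exact ha0
    · rw [ha, aeval_C, pow_zero, mul_one]
      rfl
  -- the complement of a hypersurface
  have hl2 := hl.2 hd.ne'
  obtain ⟨z1, hz1⟩ := hne0
  obtain ⟨l, hl0⟩ := Function.ne_iff.1 (hfne z1 hz1)
  have hl0' : f z1 l ≠ 0 := hl0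
  have hfm : ∀ j, MeromorphicOn (fun w => f w j) Ω := fun j z hz => (hf j z hz).meromorphicAt
  have hne : ∀ᶠ z in codiscreteWithin Ω, f z l ≠ 0 := by
    refine mer_ne hcn (hfm l) fun h0 => ?_
    exact hl0' (near_zero hΩ hz1 (hf l z1 hz1) h0).self_of_nhds
  let α : Fin (N + 1) → Fin (N + 1) →₀ ℕ := fun j => Finsupp.single j 1 + Finsupp.single l (d - 1)
  have hα : ∀ j, ∑ i, α j i = d := by
    intro j
    rw [sum_two]
    omega
  let h : Fin (N + 1) → ℂ → ℂ := fun j => regV Q (α j) f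
  let c : ℂ → ℂ := fun z => f z l ^ (d - 1) / eval (f z) Q
  have hh : ∀ z, (fun j => h j z) = fun j => c z * f z j := by
    intro z
    funext j
    change (∏ i, f z i ^ α j i) / eval (f z) Q = _
    rw [prod_two]
    change _ = f z l ^ (d - 1) / eval (f z) Q * f z j
    ring
  have hc : ∀ᶠ z in codiscreteWithin Ω, c z ≠ 0 ∧ ∀ j, h j z = c z * f z j := by
    filter_upwards [hne, cd_self (Ω := Ω)] with z hz hzΩ
    exact ⟨div_ne_zero (pow_ne_zero _ hz) (hX z hzΩ), fun j => congrFun (hh z) j⟩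
  have hhne : ∀ᶠ z in codiscreteWithin Ω, (fun j => h j z) ≠ 0 := by
    filter_upwards [hc, cd_self (Ω := Ω)] with z ⟨h1, h2⟩ hz h3
    apply hfne z hz
    funext j
    have h4 := congrFun h3 j
    rw [Pi.zero_apply, h2 j] at h4
    exact (mul_eq_zero.1 h4).resolve_left h1
  have hlh : ∀ j, IterOn Ω B (h j) := fun j => hl2 (α j) (hα j)
  -- the regular functions
  let A : Finset (Fin (N + 1) →₀ ℕ) := Finset.univ.finsuppAntidiag d
  have hA : ∀ β : Fin (N + 1) →₀ ℕ, β ∈ A ↔ ∑ j, β j = d := by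
    intro β
    rw [Finset.mem_finsuppAntidiag]
    exact ⟨fun h1 => h1.1, fun h1 => ⟨h1, Finset.subset_univ _⟩⟩
  obtain ⟨z0, l', R, hF, hk⟩ := exists_fptOn hΩ hcn ⟨z1, hz1⟩ hT Pool.Agent.Y954.IL.t_FML hB hD hlh
    hhne (ι := A) (k := fun β => regV Q β.1 f) (fun β => hl2 β.1 ((hA β.1).1 β.2))
  let x : Fin (N + 1) → LK := fun j => ty z0 (h j)
  by_cases hall : ∀ j, IsAlgebraic (baseF hT B z0) (x j / x l')
  · left
    intro i j
    exact algRatio_scale (hc.mono fun z hz => ⟨hz.1, hz.2 i, hz.2 j⟩)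
      (algebraic_of_ty hΩ hcn ⟨z1, hz1⟩ hB hlh hF.pt hF.an hF.ne' hall i j)
  right
  push Not at hall
  obtain ⟨j0, hj0⟩ := hall
  have hQx : aeval x Q ≠ 0 := by
    intro h0
    have h1 := (form_vec hΩ hf hc ⟨d, hQ⟩).1 ((hF.val Q).1 h0) z1 hz1
    exact hX z1 hz1 h1
  have hreg : ∀ β : Fin (N + 1) →₀ ℕ, ∑ j, β j = d →
      (∏ j, x j ^ β j) / aeval x Q = ty z0 (regV Q β f) ∧ ty z0 (regV Q β f) ∈ R := by
    intro β hβ
    obtain ⟨k1, k2⟩ := hk ⟨β, (hA β).2 hβ⟩
    refine ⟨?_, k2⟩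
    rw [div_eq_iff hQx, ← aeval_mon]
    obtain ⟨a1, b1⟩ := ty_eval hT hF.an (monomial β (1 : ℂ))
    obtain ⟨a2, b2⟩ := ty_eval hT hF.an Q
    have e1 : aeval x (monomial β (1 : ℂ)) =
        ty z0 (fun z => eval (fun j => h j z) (monomial β (1 : ℂ))) := b1.symm
    have e2 : aeval x Q = ty z0 (fun z => eval (fun j => h j z) Q) := b2.symm
    rw [e1, e2, ← ty_mul hT k1 a2]
    apply ty_congr hT
    filter_upwards [hΩ.mem_nhds hF.pt] with z hzΩ
    have e3 : ∀ v : Fin (N + 1) → ℂ, eval v (monomial β (1 : ℂ)) = ∏ j, v j ^ β j := by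
      intro v
      rw [← aeval_eq_eval, aeval_mon]
    have hmon : (monomial β (1 : ℂ)).IsHomogeneous d := by
      apply isHomogeneous_monomial
      rw [Finsupp.degree_eq_sum]
      exact hβ
    rw [hh z, eval_scale hmon, eval_scale hQ, e3]
    change _ = (∏ j, f z j ^ β j) / eval (f z) Q * _
    rw [div_mul_eq_mul_div, eq_div_iff (hX z hzΩ)]
    ring
  let t : Finset LK := (Finset.univ.image fun j => x j / x l') ∪
    A.image fun β => (∏ j, x j ^ β j) / aeval x Q
  have hRF : RatFam R t := by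
    refine H.main hC (baseF_good hT hB z0 hD) hF.tow (fun a ha => ?_) ⟨x j0 / x l',
      Finset.mem_union_left _ (Finset.mem_image.2 ⟨j0, Finset.mem_univ j0, rfl⟩), hj0⟩
    rcases Finset.mem_union.1 ha with h1 | h1
    · obtain ⟨j, -, rfl⟩ := Finset.mem_image.1 h1
      exact (frac R).div_mem (le_frac R (hF.mem j)) (le_frac R (hF.mem l'))
    · obtain ⟨β, hβ, rfl⟩ := Finset.mem_image.1 h1
      obtain ⟨h2, h3⟩ := hreg β ((hA β).1 hβ)
      rw [h2]
      exact le_frac R h3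
  obtain ⟨M, i1, i2, P, h1, h2, h3⟩ := Pool.Agent.Y814.IL.t_PF Pool.Agent.Y988.IL.t_LOGP
    LK N d Q hd hQ x l' R t hF.ne' hQx hRF
    (fun a ha => by
      rcases Finset.mem_union.1 ha with h1 | h1
      · obtain ⟨j, -, rfl⟩ := Finset.mem_image.1 h1
        exact Or.inl ⟨j, rfl⟩
      · obtain ⟨β, hβ, rfl⟩ := Finset.mem_image.1 h1
        exact Or.inr ⟨β, (hA β).1 hβ, rfl⟩)
    (fun j => Finset.mem_union_left _ (Finset.mem_image.2 ⟨j, Finset.mem_univ j, rfl⟩))
    (fun β hβ => ⟨Finset.mem_union_right _ (Finset.mem_image.2 ⟨β, (hA β).2 hβ, rfl⟩), by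
      obtain ⟨h2, h3⟩ := hreg β hβ
      rw [h2]
      exact h3⟩)
  refine ⟨M, i1, i2, P, fun G hG => ?_, h2, h3⟩
  rw [h1 G hG, ← form_vec hΩ hf hc hG]
  exact hF.val G

/-- varieties covered by images of the punctured line, in terms of the generic point -/
theorem not_lgt {K : Type} [Field K] [Algebra ℂ K] {w : ℕ} {y : Fin (N + 1) → K}
    {Q : MvPolynomial (Fin (N + 1)) ℂ} {q : ℕ} (hQ : Q.IsHomogeneous q) (hne : y ≠ 0)
    (hgen : coords ℂ y = ⊤) (hdim : Algebra.trdeg ℂ K = w)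
    {M : Type} [Field M] [Algebra ℂ M] (P : Fin (N + 1) → Polynomial M)
    (hrel : ∀ G : MvPolynomial (Fin (N + 1)) ℂ, IsForm G →
      (W602.GT.val y G = 0 ↔ aeval P G = 0))
    (hbd : ∃ (c : M) (k : ℕ), c ≠ 0 ∧ aeval P Q = Polynomial.C c * Polynomial.X ^ k)
    (hw : ∃ j k, Polynomial.derivative (P j) * P k ≠ P j * Polynomial.derivative (P k)) :
    ¬ LogGeneralType ℂ K w (OffQ Q q y) := by
  have hoff : W602.GT.val y Q ≠ 0 := by
    rw [Ne, hrel Q ⟨q, hQ⟩]
    obtain ⟨c, k, hc, hck⟩ := hbd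
    rw [hck]
    exact mul_ne_zero (Polynomial.C_ne_zero.2 hc) (pow_ne_zero _ Polynomial.X_ne_zero)
  refine Pool.Agent.Y405.IL.t_LGT N (RingHom.ker (aeval y : MvPolynomial (Fin (N + 1)) ℂ →ₐ[ℂ] K))
    Q q K w y hQ ⟨⟨hne, fun H hH => ?_, hoff, hgen, hdim⟩, fun H _ hH => ?_⟩ M P hrel hbd hw
  · exact hH
  · exact hH

end Pool.Agent.Helper4K9.IP
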